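import Pool.Agent.Results.MP_03befd_an.LegendreHull

/-!
# The rearrangement hull of the Legendre maximal class contains the classes `M^q`, `q > 1`

The classes `M^q` are defined by the integrals of the truncations of a function; they contain
`L^q`, and they contain all integrable functions with a symmetric distribution.
-/

set_option autoImplicit false

open MeasureTheory Set Real
open scoped ENNReal

namespace Pool.Agent.Results.MP_03befd_an.TruncationClasses

open Pool.Agent.Results.MP_03befd_an.LegendreHull

/-- The integral over `S` of the truncation of `f` which is `f` where `|f| > t` and `0`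
elsewhere. -/
noncomputable def tail (f : S → ℝ) (t : ℝ) : ℝ := ∫ x, (if t < |f x| then f x else 0) ∂mu

/-- The class `M^q` of all `f ∈ L¹` such that `t ^ (q - 2) * |tail f t|` is integrable over
`0 < t < ∞`. -/
def M (q : ℝ) : Set (S → ℝ) :=
  {f | Integrable f mu ∧ ∫⁻ t in Ioi (0 : ℝ), ENNReal.ofReal (t ^ (q - 2) * |tail f t|) < ⊤}

/-- The class of all `f ∈ L¹` which have the same distribution as `-f`. -/
def Sym : Set (S → ℝ) :=
  {f | Integrable f mu ∧ Measure.map f mu = Measure.map (fun x => -f x) mu}

theorem M_sub (q : ℝ) (hq : 1 < q) : M q ⊆ RH0 A := by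
  intro f hf
  simp only [RH0, mem_iInter]
  intro ε hε
  obtain ⟨e, he, hd, hi, hN⟩ := Pool.Agent.Helper187.Leg.main_subtype q hq f hf.1 hf.2 hε
  have he' : MeasurePreserving e mu mu := he
  refine ⟨f ∘ e, ⟨hi, ?_⟩, e.symm, ⟨he'.symm e, ?_⟩, ?_⟩
  · unfold maximal partialSum p
    simp only [legendre_eq]
    exact hN
  · have h1 : {x | e.symm x ≠ x} = {x | e x ≠ x} := by
      ext x
      simp only [mem_ofPred_eq, ne_eq, not_iff_not]
      constructor
      · intro h
        have := e.apply_symm_apply x
        rw [h] at this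
        exact this
      · intro h
        have := e.symm_apply_apply x
        rw [h] at this
        exact this
    rw [h1]
    exact hd
  · funext x
    simp

theorem L_sub (q : ℝ) (hq : 1 < q) : L q ⊆ M q := fun f hf =>
  Pool.Agent.Helper187.Leg.main_Lp q hq f hf

theorem tail_sym {f : S → ℝ} (hf : f ∈ Sym) (t : ℝ) : tail f t = 0 := by
  obtain ⟨hi, hs⟩ := hf
  have hφ : Measurable fun y : ℝ => if t < |y| then y else 0 :=
    Measurable.ite (measurableSet_lt measurable_const (by fun_prop)) measurable_id
      measurable_const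
  have h1 : tail f t = ∫ y, (if t < |y| then y else 0) ∂(Measure.map f mu) :=
    (integral_map hi.aemeasurable hφ.aestronglyMeasurable).symm
  have h2 : ∫ y, (if t < |y| then y else 0) ∂(Measure.map (fun x => -f x) mu) =
      ∫ x, (if t < |-f x| then -f x else 0) ∂mu :=
    integral_map hi.aemeasurable.neg hφ.aestronglyMeasurable
  have h3 : ∫ x, (if t < |-f x| then -f x else 0) ∂mu = -tail f t := by
    unfold tail
    rw [← integral_neg]
    refine integral_congr_ae (Filter.Eventually.of_forall fun x => ?_)
    dsimp only
    rw [abs_neg]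
    split_ifs <;> simp
  rw [hs, h2, h3] at h1
  linarith

theorem Sym_sub (q : ℝ) : Sym ⊆ M q := by
  intro f hf
  refine ⟨hf.1, ?_⟩
  simp only [tail_sym hf, abs_zero, mul_zero, ENNReal.ofReal_zero, lintegral_zero]
  exact ENNReal.zero_lt_top

/-- `L^{8/7} ⊂ RH_0(A)`; more generally, for every `q > 1`, `RH_0(A)` contains the class `M^q`,
which contains `L^q` and all integrable functions with a symmetric distribution. -/
theorem result : L (8 / 7) ⊆ RH0 A ∧
    ∀ q : ℝ, 1 < q → M q ⊆ RH0 A ∧ L q ⊆ M q ∧ Sym ⊆ M q :=
  ⟨(L_sub _ (by norm_num)).trans (M_sub _ (by norm_num)),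
    fun q hq => ⟨M_sub q hq, L_sub q hq, Sym_sub q⟩⟩

end Pool.Agent.Results.MP_03befd_an.TruncationClasses
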